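import Pool.Agent.H42.Vec1

open Pool.Agent.H42.VecDefs Cardinal

theorem Pool.Agent.Results.MP_43e680_lc.Yes.result :
    (∀ (F : Type) [Field F], nonMR ≤ aVec F) ∧
    ∀ (F E : Type) [Field F] [AddCommGroup E] [Module F E] (A : Set (Submodule F E)),
      Mad A → A.Nontrivial → nonMR ≤ #A :=
  ⟨Pool.Agent.H42.Vec1.final, fun _ _ _ _ _ _ h h' =>
    Pool.Agent.H42.Vec1.nonMR_le.trans (Pool.Agent.H42.Vec1.main h h')⟩
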